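import Mathlib

/-!
# Quantile discretisation of a logarithmic potential
-/

set_option autoImplicit false

namespace Pool.Agent.Helper63.E38

open MeasureTheory Filter Topology Real

/-- division points with equal masses -/
theorem exists_division {ρ : ℝ → ℝ} {T M : ℝ} (hT : 0 ≤ T) (hM : 0 < M)
    (hρ : ∀ t ∈ Set.Icc 0 T, 0 ≤ ρ t) (hρi : IntervalIntegrable ρ volume 0 T)
    (hmass : ∫ t in (0 : ℝ)..T, ρ t = M) {n : ℕ} (hn : 0 < n) :
    ∃ θ : ℕ → ℝ, (∀ j ≤ n, θ j ∈ Set.Icc 0 T) ∧ θ 0 = 0 ∧ θ n = T ∧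
      (∀ j < n, θ j ≤ θ (j + 1)) ∧ ∀ j < n, ∫ t in θ j..θ (j + 1), ρ t = M / n := by
  have hn0 : (0 : ℝ) < n := by exact_mod_cast hn
  set G : ℝ → ℝ := fun x => ∫ t in (0 : ℝ)..x, ρ t with hG
  have hcont : ContinuousOn G (Set.Icc 0 T) := by
    have h1 : IntegrableOn ρ (Set.uIcc 0 T) volume := (intervalIntegrable_iff' (by simp)).1 hρi
    have := intervalIntegral.continuousOn_primitive_interval (μ := volume) (f := ρ) (a := 0)
      (b := T) h1
    rwa [Set.uIcc_of_le hT] at this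
  have hG0 : G 0 = 0 := by simp [hG]
  have hGT : G T = M := hmass
  have hex : ∀ j : ℕ, j ≤ n → ∃ t ∈ Set.Icc 0 T, G t = j * M / n := by
    intro j hj
    have h1 : (j : ℝ) * M / n ∈ Set.Icc (G 0) (G T) := by
      rw [hG0, hGT]
      constructor
      · positivity
      · rw [div_le_iff₀ hn0]
        have : (j : ℝ) ≤ n := by exact_mod_cast hj
        nlinarith
    exact intermediate_value_Icc hT hcont h1
  choose! φ hφ using hex
  -- fix the ends
  set θ : ℕ → ℝ := fun j => if j = 0 then 0 else if j = n then T else φ j with hθ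
  have hθmem : ∀ j ≤ n, θ j ∈ Set.Icc 0 T := by
    intro j hj
    simp only [hθ]
    split_ifs with h1 h2
    · exact ⟨le_rfl, hT⟩
    · exact ⟨hT, le_rfl⟩
    · exact (hφ j hj).1
  have hθG : ∀ j ≤ n, G (θ j) = j * M / n := by
    intro j hj
    simp only [hθ]
    split_ifs with h1 h2
    · rw [hG0, h1]
      simp
    · rw [hGT, h2]
      field_simp
    · exact (hφ j hj).2
  have hii : ∀ s t, s ∈ Set.Icc 0 T → t ∈ Set.Icc 0 T → IntervalIntegrable ρ volume s t := by
    intro s t hs ht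
    refine hρi.mono_set ?_
    rw [Set.uIcc_of_le hT]
    exact Set.uIcc_subset_Icc hs ht
  have h0mem : (0 : ℝ) ∈ Set.Icc 0 T := ⟨le_rfl, hT⟩
  have hGsub : ∀ s t, s ∈ Set.Icc 0 T → t ∈ Set.Icc 0 T → ∫ x in s..t, ρ x = G t - G s := by
    intro s t hs ht
    simp only [hG]
    rw [intervalIntegral.integral_interval_sub_left (hii 0 t h0mem ht) (hii 0 s h0mem hs)]
  have hstep : ∀ j < n, ∫ t in θ j..θ (j + 1), ρ t = M / n := by
    intro j hj
    rw [hGsub _ _ (hθmem j hj.le) (hθmem (j + 1) hj), hθG j hj.le, hθG (j + 1) hj]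
    push_cast
    field_simp
    ring
  refine ⟨θ, hθmem, by simp [hθ], ?_, ?_, hstep⟩
  · simp [hθ, hn.ne']
  · intro j hj
    by_contra hlt
    push Not at hlt
    have h1 := hstep j hj
    have h2 : 0 ≤ ∫ t in θ (j + 1)..θ j, ρ t := by
      apply intervalIntegral.integral_nonneg hlt.le
      intro t ht
      exact hρ t ⟨(hθmem (j + 1) hj).1.trans ht.1, ht.2.trans (hθmem j hj.le).2⟩
    rw [intervalIntegral.integral_symm, h1] at h2
    have h3 : 0 < M / n := by positivity
    linarith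

/-- **Discretisation lemma.** -/
theorem discr {X ρ : ℝ → ℝ} {T x r δ C : ℝ} {n : ℕ} {θ : ℕ → ℝ} (hT : 0 ≤ T)
    (hX : AntitoneOn X (Set.Icc 0 T)) (hρ : ∀ t ∈ Set.Icc 0 T, 0 ≤ ρ t)
    (hρi : IntervalIntegrable ρ volume 0 T)
    (hint : IntervalIntegrable (fun t => ρ t * Real.log |x - X t|) volume 0 T)
    (hC : 1 ≤ C) (hdiam : X 0 - X T ≤ C)
    (hθmem : ∀ j ≤ n, θ j ∈ Set.Icc 0 T) (hθ0 : θ 0 = 0) (hθn : θ n = T)
    (hmono : ∀ j < n, θ j ≤ θ (j + 1)) (hδ : 0 < δ)
    (hmass : ∀ j < n, ∫ t in θ j..θ (j + 1), ρ t = δ)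
    (hr0 : 0 < r) (hr1 : r ≤ 1) (hdist : ∀ j ≤ n, r ≤ |x - X (θ j)|) :
    ∫ t in (0 : ℝ)..T, ρ t * Real.log |x - X t| ≤
      δ * (∑ j ∈ Finset.range (n + 1), Real.log |x - X (θ j)| + Real.log C - 2 * Real.log r) := by
  have hlogC : 0 ≤ Real.log C := Real.log_nonneg hC
  have hlogr : Real.log r ≤ 0 := Real.log_nonpos hr0.le hr1
  have hL : ∀ j ≤ n, Real.log r ≤ Real.log |x - X (θ j)| := fun j hj =>
    Real.log_le_log hr0 (hdist j hj)
  have hne : ∀ j ≤ n, x ≠ X (θ j) := by
    intro j hj h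
    have := hdist j hj
    rw [h, sub_self, abs_zero] at this
    linarith
  have hii : ∀ (g : ℝ → ℝ), IntervalIntegrable g volume 0 T → ∀ s t, s ∈ Set.Icc 0 T →
      t ∈ Set.Icc 0 T → IntervalIntegrable g volume s t := by
    intro g hg s t hs ht
    refine hg.mono_set ?_
    rw [Set.uIcc_of_le hT]
    exact Set.uIcc_subset_Icc hs ht
  -- bound on one piece
  have hpiece : ∀ j < n, ∀ c : ℝ,
      (∀ t ∈ Set.Icc (θ j) (θ (j + 1)), Real.log |x - X t| ≤ c) →
      ∫ t in θ j..θ (j + 1), ρ t * Real.log |x - X t| ≤ δ * c := by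
    intro j hj c hc
    have h1 : ∫ t in θ j..θ (j + 1), ρ t * Real.log |x - X t| ≤ ∫ t in θ j..θ (j + 1), ρ t * c := by
      apply intervalIntegral.integral_mono_on (hmono j hj)
        (hii _ hint _ _ (hθmem j hj.le) (hθmem (j + 1) hj))
        ((hii _ hρi _ _ (hθmem j hj.le) (hθmem (j + 1) hj)).mul_const c)
      intro t ht
      refine mul_le_mul_of_nonneg_left (hc t ht) (hρ t ?_)
      exact ⟨(hθmem j hj.le).1.trans ht.1, ht.2.trans (hθmem (j + 1) hj).2⟩
    rw [intervalIntegral.integral_mul_const, hmass j hj] at h1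
    exact h1
  have hmemI : ∀ j < n, ∀ t ∈ Set.Icc (θ j) (θ (j + 1)), t ∈ Set.Icc 0 T := by
    intro j hj t ht
    exact ⟨(hθmem j hj.le).1.trans ht.1, ht.2.trans (hθmem (j + 1) hj).2⟩
  have hright : ∀ j < n, x < X (θ (j + 1)) →
      ∫ t in θ j..θ (j + 1), ρ t * Real.log |x - X t| ≤ δ * Real.log |x - X (θ j)| := by
    intro j hj hx
    refine hpiece j hj _ fun t ht => ?_
    have h1 : X (θ (j + 1)) ≤ X t := hX (hmemI j hj t ht) (hθmem (j + 1) hj) ht.2
    have h2 : X t ≤ X (θ j) := hX (hθmem j hj.le) (hmemI j hj t ht) ht.1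
    rw [abs_sub_comm x, abs_sub_comm x, abs_of_pos (by linarith), abs_of_pos (by linarith)]
    exact Real.log_le_log (by linarith) (by linarith)
  have hleft : ∀ j < n, X (θ j) < x →
      ∫ t in θ j..θ (j + 1), ρ t * Real.log |x - X t| ≤ δ * Real.log |x - X (θ (j + 1))| := by
    intro j hj hx
    refine hpiece j hj _ fun t ht => ?_
    have h1 : X (θ (j + 1)) ≤ X t := hX (hmemI j hj t ht) (hθmem (j + 1) hj) ht.2
    have h2 : X t ≤ X (θ j) := hX (hθmem j hj.le) (hmemI j hj t ht) ht.1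
    rw [abs_of_pos (by linarith), abs_of_pos (by linarith)]
    exact Real.log_le_log (by linarith) (by linarith)
  have hinside : ∀ j < n, X (θ (j + 1)) < x → x < X (θ j) →
      ∫ t in θ j..θ (j + 1), ρ t * Real.log |x - X t| ≤ δ * Real.log C := by
    intro j hj hx1 hx2
    refine hpiece j hj _ fun t ht => ?_
    have h0 : X (θ j) ≤ X 0 := hX ⟨le_rfl, hT⟩ (hθmem j hj.le) (hθmem j hj.le).1
    have h1 : X T ≤ X (θ (j + 1)) := hX (hθmem (j + 1) hj) ⟨hT, le_rfl⟩ (hθmem (j + 1) hj).2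
    have h2 : X t ≤ X 0 := hX ⟨le_rfl, hT⟩ (hmemI j hj t ht) (hmemI j hj t ht).1
    have h3 : X T ≤ X t := hX (hmemI j hj t ht) ⟨hT, le_rfl⟩ (hmemI j hj t ht).2
    have h4 : |x - X t| ≤ C := by
      rw [abs_le]
      constructor <;> linarith
    rcases eq_or_lt_of_le (abs_nonneg (x - X t)) with h5 | h5
    · rw [← h5, Real.log_zero]
      exact hlogC
    · exact Real.log_le_log h5 h4
  -- the induction
  have key : ∀ i ≤ n,
      (x < X (θ i) → ∑ j ∈ Finset.range i, ∫ t in θ j..θ (j + 1), ρ t * Real.log |x - X t| ≤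
        δ * ∑ j ∈ Finset.range i, Real.log |x - X (θ j)|) ∧
      (X (θ i) < x → ∑ j ∈ Finset.range i, ∫ t in θ j..θ (j + 1), ρ t * Real.log |x - X t| ≤
        δ * (∑ j ∈ Finset.range (i + 1), Real.log |x - X (θ j)| + Real.log C
          - 2 * Real.log r)) := by
    intro i
    induction i with
    | zero =>
      intro _
      refine ⟨fun _ => by simp, fun _ => ?_⟩
      simp only [Finset.range_zero, Finset.sum_empty, zero_add, Finset.range_one,
        Finset.sum_singleton]
      have := hL 0 (Nat.zero_le n)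
      apply mul_nonneg hδ.le
      linarith
    | succ i ih =>
      intro hi
      have hi' : i < n := hi
      obtain ⟨ih1, ih2⟩ := ih hi'.le
      have hXmono : X (θ (i + 1)) ≤ X (θ i) :=
        hX (hθmem i hi'.le) (hθmem (i + 1) hi) (hmono i hi')
      constructor
      · intro hx
        have h1 := ih1 (lt_of_lt_of_le hx hXmono)
        rw [Finset.sum_range_succ, Finset.sum_range_succ, mul_add]
        exact add_le_add h1 (hright i hi' hx)
      · intro hx
        rw [Finset.sum_range_succ]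
        rcases lt_or_gt_of_ne (hne i hi'.le) with h2 | h2
        · have h1 := ih1 h2
          have h3 := hinside i hi' hx h2
          rw [Finset.sum_range_succ, Finset.sum_range_succ]
          have h4 := hL i hi'.le
          have h5 := hL (i + 1) hi
          nlinarith
        · have h1 := ih2 h2
          have h3 := hleft i hi' h2
          rw [Finset.sum_range_succ (fun j => Real.log |x - X (θ j)|) (i + 1)]
          nlinarith
  have hsum : ∑ j ∈ Finset.range n, ∫ t in θ j..θ (j + 1), ρ t * Real.log |x - X t|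
      = ∫ t in (0 : ℝ)..T, ρ t * Real.log |x - X t| := by
    rw [intervalIntegral.sum_integral_adjacent_intervals, hθ0, hθn]
    intro j hj
    exact hii _ hint _ _ (hθmem j (le_of_lt hj)) (hθmem (j + 1) hj)
  obtain ⟨k1, k2⟩ := key n le_rfl
  rw [← hsum]
  rcases lt_or_gt_of_ne (hne n le_rfl) with h | h
  · have h1 := k1 h
    have h2 := hL n le_rfl
    rw [Finset.sum_range_succ]
    nlinarith
  · exact k2 h

end Pool.Agent.Helper63.E38
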