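import Mathlib

/-!
# The function `F` whose roots are the ends of the main component
-/

set_option autoImplicit false

namespace Pool.Agent.Helper63.E38

open Filter Topology Real

/-- `log |w| - m log |(k w - 1) / (w - k)|` -/
noncomputable def Fk (k m w : ℝ) : ℝ := Real.log w - m * (Real.log (k * w - 1) - Real.log (w - k))

theorem Fk_one (k m : ℝ) : Fk k m 1 = 0 := by
  unfold Fk
  have : Real.log (1 - k) = Real.log (k * 1 - 1) := by
    rw [← Real.log_neg_eq_log]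
    congr 1
    ring
  rw [this]
  simp

theorem Fk_neg_one (k m : ℝ) : Fk k m (-1) = 0 := by
  unfold Fk
  have : (-1 - k) = k * (-1) - 1 := by ring
  rw [this]
  simp

theorem hasDerivAt_Fk {k m w : ℝ} (h0 : w ≠ 0) (h1 : k * w - 1 ≠ 0) (h2 : w - k ≠ 0) :
    HasDerivAt (Fk k m) (((k * w - 1) * (w - k) + m * (k ^ 2 - 1) * w) /
      (w * ((k * w - 1) * (w - k)))) w := by
  have e1 : HasDerivAt (fun w => Real.log (k * w - 1)) (k / (k * w - 1)) w := by
    have : HasDerivAt (fun w => k * w - 1) k w := by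
      simpa using ((hasDerivAt_id w).const_mul k).sub_const 1
    exact this.log h1
  have e2 : HasDerivAt (fun w => Real.log (w - k)) (1 / (w - k)) w :=
    ((hasDerivAt_id w).sub_const k).log h2
  have e3 := (Real.hasDerivAt_log h0).sub ((e1.sub e2).const_mul m)
  refine e3.congr_deriv ?_
  have gen : ∀ a b : ℝ, a ≠ 0 → b ≠ 0 →
      w⁻¹ - m * (k / a - 1 / b) = (a * b - m * (k * b - a) * w) / (w * (a * b)) := by
    intro a b ha hb
    field_simp
  rw [gen _ _ h1 h2]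
  congr 1
  ring

/-- On `(k, ∞)` the function is strictly increasing. -/
theorem Fk_strictMonoOn {k m : ℝ} (hk : 1 < k) (hm : 0 ≤ m) :
    StrictMonoOn (Fk k m) (Set.Ioi k) := by
  have hd : ∀ w ∈ Set.Ioi k, w ≠ 0 ∧ k * w - 1 ≠ 0 ∧ w - k ≠ 0 := by
    intro w hw
    rw [Set.mem_Ioi] at hw
    refine ⟨by linarith, ?_, by linarith⟩
    have : 1 < k * w := by nlinarith
    linarith
  apply strictMonoOn_of_deriv_pos (convex_Ioi k)
  · intro w hw
    obtain ⟨h0, h1, h2⟩ := hd w hw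
    exact (hasDerivAt_Fk h0 h1 h2).continuousAt.continuousWithinAt
  · intro w hw
    rw [interior_Ioi] at hw
    obtain ⟨h0, h1, h2⟩ := hd w hw
    rw [(hasDerivAt_Fk h0 h1 h2).deriv]
    rw [Set.mem_Ioi] at hw
    have p0 : 0 < w := by linarith
    have p1 : 0 < k * w - 1 := by
      have : 1 < k * w := by nlinarith
      linarith
    have p2 : 0 < w - k := by linarith
    have p3 : 0 ≤ m * (k ^ 2 - 1) * w := by
      have : 0 < k ^ 2 - 1 := by nlinarith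
      positivity
    positivity

/-- On `(-∞, -1]` the function is nonnegative. -/
theorem Fk_nonneg_neg {k m w : ℝ} (hk : 1 < k) (hm : 0 ≤ m) (hm1 : m ≤ 1) (hw : w ≤ -1) :
    0 ≤ Fk k m w := by
  have hd : ∀ w ∈ Set.Iic (-1 : ℝ), w ≠ 0 ∧ k * w - 1 ≠ 0 ∧ w - k ≠ 0 := by
    intro w hw
    rw [Set.mem_Iic] at hw
    refine ⟨by linarith, ?_, by linarith⟩
    have : k * w < 0 := by nlinarith
    linarith
  have hanti : AntitoneOn (Fk k m) (Set.Iic (-1)) := by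
    apply antitoneOn_of_deriv_nonpos (convex_Iic _)
    · intro w hw
      obtain ⟨h0, h1, h2⟩ := hd w hw
      exact (hasDerivAt_Fk h0 h1 h2).continuousAt.continuousWithinAt
    · intro w hw
      rw [interior_Iic] at hw
      obtain ⟨h0, h1, h2⟩ := hd w (Set.mem_Iic.2 (le_of_lt hw))
      exact (hasDerivAt_Fk h0 h1 h2).differentiableAt.differentiableWithinAt
    · intro w hw
      rw [interior_Iic] at hw
      obtain ⟨h0, h1, h2⟩ := hd w (Set.mem_Iic.2 (le_of_lt hw))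
      rw [(hasDerivAt_Fk h0 h1 h2).deriv]
      rw [Set.mem_Iio] at hw
      have p0 : 0 < -w := by linarith
      have p1 : 0 < 1 - k * w := by nlinarith
      have p2 : 0 < k - w := by linarith
      have hden : w * ((k * w - 1) * (w - k)) = -((-w) * ((1 - k * w) * (k - w))) := by ring
      rw [hden]
      apply div_nonpos_of_nonneg_of_nonpos
      · have e : (k * w - 1) * (w - k) + m * (k ^ 2 - 1) * w
            = k * w ^ 2 + k + (-w) * ((k ^ 2 + 1) - m * (k ^ 2 - 1)) := by ring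
        rw [e]
        have h3 : 0 ≤ (k ^ 2 + 1) - m * (k ^ 2 - 1) := by nlinarith
        have h4 : 0 ≤ (-w) * ((k ^ 2 + 1) - m * (k ^ 2 - 1)) := mul_nonneg p0.le h3
        have h5 : 0 ≤ k * w ^ 2 := by positivity
        linarith
      · have : 0 < (-w) * ((1 - k * w) * (k - w)) := by positivity
        linarith
  have := hanti hw (Set.mem_Iic.2 le_rfl) hw
  rwa [Fk_neg_one] at this

theorem Fk_facts {k w : ℝ} (hk : 1 < k) (h1 : 1 ≤ w) (h2 : w < k) :
    w ≠ 0 ∧ k * w - 1 ≠ 0 ∧ w - k ≠ 0 := by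
  refine ⟨by linarith, ?_, by linarith⟩
  have : 1 < k * w := by nlinarith
  linarith

/-- mean value theorem for `Fk` on `[a, b] ⊆ [1, k)`: the sign of the increment is that of the
quadratic at an intermediate point -/
theorem Fk_mvt {k m a b : ℝ} (hk : 1 < k) (ha : 1 ≤ a) (hab : a < b) (hb : b < k) :
    ∃ ξ ∈ Set.Ioo a b, ∃ c : ℝ, 0 < c ∧ Fk k m b - Fk k m a
      = c * (-((k * ξ - 1) * (ξ - k) + m * (k ^ 2 - 1) * ξ)) := by
  have hcont : ContinuousOn (Fk k m) (Set.Icc a b) := by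
    intro w hw
    obtain ⟨h0, h1, h2⟩ := Fk_facts hk (ha.trans hw.1) (lt_of_le_of_lt hw.2 hb)
    exact (hasDerivAt_Fk h0 h1 h2).continuousAt.continuousWithinAt
  obtain ⟨ξ, hξ, hξ'⟩ := exists_hasDerivAt_eq_slope (Fk k m) _ hab hcont (fun w hw => by
    obtain ⟨h0, h1, h2⟩ := Fk_facts hk (ha.trans hw.1.le) (hw.2.trans hb)
    exact hasDerivAt_Fk (k := k) (m := m) h0 h1 h2)
  refine ⟨ξ, hξ, (b - a) / (ξ * ((k * ξ - 1) * (k - ξ))), ?_, ?_⟩
  · have p0 : 0 < ξ := by linarith [hξ.1]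
    have p1 : 0 < k * ξ - 1 := by
      have : 1 < k * ξ := by nlinarith [hξ.1]
      linarith
    have p2 : 0 < k - ξ := by linarith [hξ.2]
    have p3 : 0 < b - a := by linarith
    positivity
  · have hba : b - a ≠ 0 := by linarith
    rw [eq_div_iff hba] at hξ'
    rw [← hξ']
    obtain ⟨h0, h1, h2⟩ := Fk_facts hk (ha.trans hξ.1.le) (hξ.2.trans hb)
    have h3 : k - ξ ≠ 0 := by
      intro h
      apply h2
      linarith
    field_simp
    ring

/-- The existence of a root in `(1, k)` forces `m (k + 1) < k - 1`. -/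
theorem lt_of_root {k m u : ℝ} (hk : 1 < k) (hu1 : 1 < u) (huk : u < k) (hF : Fk k m u = 0) :
    m * (k + 1) < k - 1 := by
  by_contra hcon
  push Not at hcon
  obtain ⟨ξ, hξ, c, hc, h⟩ := Fk_mvt (m := m) hk le_rfl hu1 huk
  rw [hF, Fk_one, sub_zero] at h
  have h1 : (k * ξ - 1) * (ξ - k) + m * (k ^ 2 - 1) * ξ
      = k * (ξ - 1) ^ 2 + (k - 1) * (m * (k + 1) - (k - 1)) * ξ := by ring
  have h2 : 0 < k * (ξ - 1) ^ 2 := by
    have : 0 < ξ - 1 := by linarith [hξ.1]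
    positivity
  have h3 : 0 ≤ (k - 1) * (m * (k + 1) - (k - 1)) * ξ := by
    have e1 : 0 ≤ m * (k + 1) - (k - 1) := by linarith
    have e2 : 0 < k - 1 := by linarith
    have e3 : 0 < ξ := by linarith [hξ.1]
    positivity
  have h4 : 0 < (k * ξ - 1) * (ξ - k) + m * (k ^ 2 - 1) * ξ := by
    rw [h1]
    linarith
  have h5 := mul_pos hc h4
  linarith

/-- Between `1` and a point where `Fk` is nonnegative, `Fk` is positive. -/
theorem Fk_pos_between {k m u w : ℝ} (hk : 1 < k) (hm : m * (k + 1) < k - 1)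
    (h1w : 1 < w) (hwu : w < u) (huk : u < k) (hF : 0 ≤ Fk k m u) : 0 < Fk k m w := by
  by_contra hcon
  push Not at hcon
  obtain ⟨ξ₁, hξ₁, c₁, hc₁, h₁⟩ := Fk_mvt (m := m) hk le_rfl h1w (hwu.trans huk)
  obtain ⟨ξ₂, hξ₂, c₂, hc₂, h₂⟩ := Fk_mvt (m := m) hk h1w.le hwu huk
  rw [Fk_one, sub_zero] at h₁
  have hP : ∀ ξ : ℝ, (k * ξ - 1) * (ξ - k) + m * (k ^ 2 - 1) * ξ
      = k * (ξ - 1) ^ 2 - (k - 1) * ((k - 1) - m * (k + 1)) * ξ := fun ξ => by ring
  rw [hP] at h₁ h₂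
  set A := (k - 1) * ((k - 1) - m * (k + 1)) with hA
  have hApos : 0 < A := mul_pos (by linarith) (by linarith)
  -- the quadratic is nonnegative at ξ₁ and nonpositive at ξ₂
  have q1 : 0 ≤ k * (ξ₁ - 1) ^ 2 - A * ξ₁ := by
    by_contra hh
    push Not at hh
    have : 0 < c₁ * (-(k * (ξ₁ - 1) ^ 2 - A * ξ₁)) := mul_pos hc₁ (by linarith)
    linarith
  have q2 : k * (ξ₂ - 1) ^ 2 - A * ξ₂ ≤ 0 := by
    by_contra hh
    push Not at hh
    have : c₂ * (-(k * (ξ₂ - 1) ^ 2 - A * ξ₂)) < 0 := mul_neg_of_pos_of_neg hc₂ (by linarith)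
    linarith
  have o1 : 1 < ξ₁ := hξ₁.1
  have o2 : ξ₁ < ξ₂ := hξ₁.2.trans hξ₂.1
  -- k (ξ - 1)^2 / ξ is increasing
  have q3 : A * ξ₁ * ξ₂ ≤ k * (ξ₁ - 1) ^ 2 * ξ₂ := by nlinarith
  have q4 : k * (ξ₂ - 1) ^ 2 * ξ₁ ≤ A * ξ₂ * ξ₁ := by nlinarith
  have q5 : k * ((ξ₂ - 1) ^ 2 * ξ₁ - (ξ₁ - 1) ^ 2 * ξ₂) ≤ 0 := by nlinarith
  have q6 : (ξ₂ - 1) ^ 2 * ξ₁ - (ξ₁ - 1) ^ 2 * ξ₂ = (ξ₂ - ξ₁) * (ξ₁ * ξ₂ - 1) := by ring
  have q7 : 0 < (ξ₂ - ξ₁) * (ξ₁ * ξ₂ - 1) := by
    apply mul_pos (by linarith)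
    nlinarith
  rw [q6] at q5
  have : 0 < k * ((ξ₂ - ξ₁) * (ξ₁ * ξ₂ - 1)) := mul_pos (by linarith) q7
  linarith

end Pool.Agent.Helper63.E38
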