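import Pool.Agent.Helper63.E38.Potential
import Pool.Agent.Helper63.E38.Discr
import Pool.Agent.Helper63.E38.FK

/-!
# The upper bound for the smallest sublevel set
-/

set_option autoImplicit false

namespace Pool.Agent.Helper63.E38

open MeasureTheory Filter Topology Real

/-- half length of the band -/
noncomputable def hk (k : ℝ) : ℝ := 4 * k / (k + 1) ^ 2

/-- Joukowski parametrisation of the complement of the band `[-1, 2 hk - 1]` -/
noncomputable def xw (k w : ℝ) : ℝ := hk k - 1 + hk k / 2 * (w + w⁻¹)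

/-- density of the band measure -/
noncomputable def rho (k m θ : ℝ) : ℝ := (1 - m * pk (1 / k) θ) / π

/-- the band -/
noncomputable def XX (k θ : ℝ) : ℝ := hk k - 1 + hk k * Real.cos θ

theorem hk_pos {k : ℝ} (h : 1 < k) : 0 < hk k := by
  unfold hk
  positivity

theorem hk_lt_one {k : ℝ} (h : 1 < k) : hk k < 1 := by
  unfold hk
  rw [div_lt_one (by positivity)]
  nlinarith [sq_nonneg (k - 1)]

theorem abs_inv_lt {k : ℝ} (h : 1 < k) : |1 / k| < 1 := by
  rw [abs_of_pos (by positivity), div_lt_one (by linarith)]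
  exact h

/-- `hk / 2 * (k + 1/k) = 2 - hk` -/
theorem hk_mul {k : ℝ} (h : 1 < k) : hk k / 2 * (k + k⁻¹) = 2 - hk k := by
  unfold hk
  have h0 : k ≠ 0 := by linarith
  have h1 : k + 1 ≠ 0 := by linarith
  field_simp
  ring

theorem xw_k {k : ℝ} (h : 1 < k) : xw k k = 1 := by
  unfold xw
  rw [hk_mul h]
  ring

theorem integral_rho {k m : ℝ} (h : 1 < k) : ∫ θ in (0 : ℝ)..π, rho k m θ = 1 - m := by
  have hpi := Real.pi_pos
  have h1 : ∫ θ in (0 : ℝ)..2 * π, pk (1 / k) θ = 2 * ∫ θ in (0 : ℝ)..π, pk (1 / k) θ := by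
    apply integral_half
    · intro θ
      rw [pk, pk, Real.cos_two_pi_sub]
    · exact (continuous_pk (abs_inv_lt h)).intervalIntegrable _ _
  rw [integral_pk (abs_inv_lt h)] at h1
  have h2 : ∫ θ in (0 : ℝ)..π, pk (1 / k) θ = π := by linarith
  unfold rho
  rw [intervalIntegral.integral_div, intervalIntegral.integral_sub intervalIntegrable_const
    (((continuous_pk (abs_inv_lt h)).intervalIntegrable _ _).const_mul m),
    intervalIntegral.integral_const_mul, h2]
  simp only [intervalIntegral.integral_const, sub_zero, smul_eq_mul, mul_one]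
  field_simp

theorem continuous_rho {k m : ℝ} (h : 1 < k) : Continuous (rho k m) := by
  unfold rho
  exact ((continuous_const.sub (continuous_const.mul (continuous_pk (abs_inv_lt h)))).div_const π)

theorem pk_le {k θ : ℝ} (h : 1 < k) : pk (1 / k) θ ≤ (k + 1) / (k - 1) := by
  have h0 : 0 < k := by linarith
  have hd := pk_den_pos (abs_inv_lt h) θ
  rw [pk, div_le_div_iff₀ hd (by linarith)]
  have hc := Real.cos_le_one θ
  have e1 : (1 - (1 / k) ^ 2) * (k - 1) * k ^ 2 = (k - 1) ^ 2 * (k + 1) := by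
    field_simp
    ring
  have e2 : (k + 1) * (1 + (1 / k) ^ 2 - 2 * (1 / k) * Real.cos θ) * k ^ 2
      = (k + 1) * (k ^ 2 + 1 - 2 * k * Real.cos θ) := by
    field_simp
  have h3 : (1 - (1 / k) ^ 2) * (k - 1) * k ^ 2
      ≤ (k + 1) * (1 + (1 / k) ^ 2 - 2 * (1 / k) * Real.cos θ) * k ^ 2 := by
    rw [e1, e2]
    nlinarith
  exact le_of_mul_le_mul_right h3 (by positivity)

theorem rho_nonneg {k m θ : ℝ} (h : 1 < k) (hm0 : 0 ≤ m) (hm : m * (k + 1) ≤ k - 1) :
    0 ≤ rho k m θ := by
  unfold rho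
  apply div_nonneg _ Real.pi_pos.le
  have h1 : m * pk (1 / k) θ ≤ m * ((k + 1) / (k - 1)) := mul_le_mul_of_nonneg_left (pk_le h) hm0
  have h2 : m * ((k + 1) / (k - 1)) ≤ 1 := by
    rw [← mul_div_assoc, div_le_one (by linarith)]
    exact hm
  linarith

theorem sub_XX (k w θ : ℝ) : xw k w - XX k θ = hk k / 2 * (w + w⁻¹) - hk k * Real.cos θ := by
  unfold xw XX
  ring

theorem sub_XX' (k α θ : ℝ) : XX k α - XX k θ = hk k * Real.cos α - hk k * Real.cos θ := by
  unfold XX
  ring

theorem pk_zero' : pk 0 = fun _ => 1 := funext pk_zero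

theorem int_out {k m w : ℝ} (h : 1 < k) (hw : 1 ≤ |w|) :
    IntervalIntegrable (fun θ => rho k m θ * Real.log |xw k w - XX k θ|) volume 0 π := by
  have h1 := integrable_pot_out (r := 0) (hk_pos h) hw (by simp)
  have h2 := integrable_pot_out (r := 1 / k) (hk_pos h) hw (abs_inv_lt h)
  have h3 := (h1.sub (h2.const_mul m)).div_const π
  refine h3.congr (fun θ _ => ?_)
  simp only [pk_zero, sub_XX, rho]
  ring

theorem int_in {k m α : ℝ} (h : 1 < k) :
    IntervalIntegrable (fun θ => rho k m θ * Real.log |XX k α - XX k θ|) volume 0 π := by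
  have h1 := integrable_pot_in (r := 0) (α := α) (hk_pos h) (by simp)
  have h2 := integrable_pot_in (r := 1 / k) (α := α) (hk_pos h) (abs_inv_lt h)
  have h3 := (h1.sub (h2.const_mul m)).div_const π
  refine h3.congr (fun θ _ => ?_)
  simp only [pk_zero, sub_XX', rho]
  ring

/-- the constant value on the band -/
noncomputable def beta (k m : ℝ) : ℝ := Real.log (hk k / 2) + m * Real.log k

theorem V_out {k m w : ℝ} (h : 1 < k) (hw : 1 ≤ |w|) (hwk : w ≠ k) :
    (∫ θ in (0 : ℝ)..π, rho k m θ * Real.log |xw k w - XX k θ|) + m * Real.log |xw k w - 1|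
      = beta k m + Fk k m w := by
  have hpi := Real.pi_pos
  have hk0 : k ≠ 0 := by linarith
  have hw0 : w ≠ 0 := by
    rintro rfl
    simp at hw
    linarith
  have h1 := integrable_pot_out (r := 0) (hk_pos h) hw (by simp)
  have h2 := integrable_pot_out (r := 1 / k) (hk_pos h) hw (abs_inv_lt h)
  have e1 : ∫ θ in (0 : ℝ)..π, rho k m θ * Real.log |xw k w - XX k θ|
      = (∫ θ in (0 : ℝ)..π, (pk 0 θ * Real.log |hk k / 2 * (w + w⁻¹) - hk k * Real.cos θ|
        - m * (pk (1 / k) θ * Real.log |hk k / 2 * (w + w⁻¹) - hk k * Real.cos θ|))) / π := by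
    rw [← intervalIntegral.integral_div]
    apply intervalIntegral.integral_congr
    intro θ _
    simp only [pk_zero, sub_XX, rho]
    ring
  rw [e1, intervalIntegral.integral_sub h1 (h2.const_mul m), intervalIntegral.integral_const_mul,
    pot_out (hk_pos h) hw (by simp), pot_out (hk_pos h) hw (abs_inv_lt h)]
  -- the distance to one
  have hw1 : w - 1 / k ≠ 0 := by
    intro h3
    have h4 : w = 1 / k := by linarith
    rw [h4] at hw
    have := abs_inv_lt h
    linarith
  have hwk' : w - k ≠ 0 := sub_ne_zero.2 hwk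
  have e2 : xw k w - 1 = hk k / 2 * ((w - k) * (w - 1 / k) / w) := by
    have h5 : xw k w - 1 = xw k w - xw k k := by rw [xw_k h]
    rw [h5]
    unfold xw
    field_simp
    ring
  have hh2 : hk k / 2 ≠ 0 := (by have := hk_pos h; positivity)
  have e3 : Real.log |xw k w - 1| = Real.log (hk k / 2) + (Real.log (w - k)
      + Real.log (w - 1 / k) - Real.log w) := by
    rw [Real.log_abs, e2, Real.log_mul hh2 (div_ne_zero (mul_ne_zero hwk' hw1) hw0),
      Real.log_div (mul_ne_zero hwk' hw1) hw0, Real.log_mul hwk' hw1]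
  have e4 : Real.log (k * w - 1) = Real.log k + Real.log (w - 1 / k) := by
    rw [← Real.log_mul hk0 hw1]
    congr 1
    field_simp
  rw [e3, Fk, beta, e4, Real.log_abs w, Real.log_abs (w - 1 / k), sub_zero, Real.log_abs]
  field_simp
  ring

theorem V_in {k m α : ℝ} (h : 1 < k) :
    (∫ θ in (0 : ℝ)..π, rho k m θ * Real.log |XX k α - XX k θ|) + m * Real.log |XX k α - 1|
      = beta k m := by
  have hpi := Real.pi_pos
  have hk0 : 0 < k := by linarith
  have h1 := integrable_pot_in (r := 0) (α := α) (hk_pos h) (by simp)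
  have h2 := integrable_pot_in (r := 1 / k) (α := α) (hk_pos h) (abs_inv_lt h)
  have e1 : ∫ θ in (0 : ℝ)..π, rho k m θ * Real.log |XX k α - XX k θ|
      = (∫ θ in (0 : ℝ)..π, (pk 0 θ * Real.log |hk k * Real.cos α - hk k * Real.cos θ|
        - m * (pk (1 / k) θ * Real.log |hk k * Real.cos α - hk k * Real.cos θ|))) / π := by
    rw [← intervalIntegral.integral_div]
    apply intervalIntegral.integral_congr
    intro θ _
    simp only [pk_zero, sub_XX', rho]
    ring
  rw [e1, intervalIntegral.integral_sub h1 (h2.const_mul m), intervalIntegral.integral_const_mul,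
    pot_in (hk_pos h) (by simp), pot_in (hk_pos h) (abs_inv_lt h)]
  have hd := pk_den_pos (abs_inv_lt h) α
  have e2 : |XX k α - 1| = hk k / 2 * (k * (1 + (1 / k) ^ 2 - 2 * (1 / k) * Real.cos α)) := by
    have h5 : XX k α - 1 = -(hk k / 2 * (k * (1 + (1 / k) ^ 2 - 2 * (1 / k) * Real.cos α))) := by
      have h6 := hk_mul h
      unfold XX
      have h7 : hk k / 2 * (k * (1 + (1 / k) ^ 2 - 2 * (1 / k) * Real.cos α))
          = hk k / 2 * (k + k⁻¹) - hk k * Real.cos α := by
        field_simp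
      rw [h7, h6]
      ring
    rw [h5, abs_neg, abs_of_pos]
    have := hk_pos h
    positivity
  have hh2 : hk k / 2 ≠ 0 := (by have := hk_pos h; positivity)
  rw [e2, Real.log_mul hh2 (mul_pos hk0 hd).ne', Real.log_mul hk0.ne' hd.ne', beta]
  have e5 : Real.log (1 + 0 ^ 2 - 2 * 0 * Real.cos α) = 0 := by simp
  rw [e5]
  field_simp
  ring

theorem joukowski {c : ℝ} (hc : 1 ≤ |c|) :
    ∃ w, 1 ≤ |w| ∧ (0 ≤ c → 1 ≤ w) ∧ (c ≤ 0 → w ≤ -1) ∧ w + w⁻¹ = 2 * c := by
  have hc2 : 0 ≤ c ^ 2 - 1 := by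
    rw [← sq_abs]
    nlinarith
  have hs := Real.sqrt_nonneg (c ^ 2 - 1)
  have hs2 := Real.sq_sqrt hc2
  rcases le_total 0 c with h0 | h0
  · rw [abs_of_nonneg h0] at hc
    have hinv : (c + √(c ^ 2 - 1))⁻¹ = c - √(c ^ 2 - 1) := by
      apply inv_eq_of_mul_eq_one_right
      nlinarith
    refine ⟨c + √(c ^ 2 - 1), ?_, fun _ => by linarith, fun h => by linarith, ?_⟩
    · rw [abs_of_nonneg (by linarith)]
      linarith
    · rw [hinv]
      ring
  · rw [abs_of_nonpos h0] at hc
    have hinv : (c - √(c ^ 2 - 1))⁻¹ = c + √(c ^ 2 - 1) := by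
      apply inv_eq_of_mul_eq_one_right
      nlinarith
    refine ⟨c - √(c ^ 2 - 1), ?_, fun h => by linarith, fun _ => by linarith, ?_⟩
    · rw [abs_of_nonpos (by linarith)]
      linarith
    · rw [hinv]
      ring

theorem xw_lt {k w₁ w₂ : ℝ} (h : 1 < k) (h1 : 1 ≤ w₁) (h2 : w₁ < w₂) : xw k w₁ < xw k w₂ := by
  unfold xw
  have hh := hk_pos h
  have p1 : 0 < w₁ := by linarith
  have p2 : 0 < w₂ := by linarith
  have e : w₂ + w₂⁻¹ - (w₁ + w₁⁻¹) = (w₂ - w₁) * (w₁ * w₂ - 1) / (w₁ * w₂) := by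
    field_simp
    ring
  have e2 : 0 < (w₂ - w₁) * (w₁ * w₂ - 1) / (w₁ * w₂) := by
    have : 0 < w₁ * w₂ - 1 := by nlinarith
    have : 0 < w₂ - w₁ := by linarith
    positivity
  rw [← e] at e2
  nlinarith

/-- **The potential is at least `beta` outside the main component.** -/
theorem V_ge {k m u v : ℝ} (h : 1 < k) (hu1 : 1 < u) (huk : u < k) (hkv : k < v)
    (hm0 : 0 ≤ m) (hm : m * (k + 1) < k - 1) (hFu : 0 ≤ Fk k m u) (hFv : 0 ≤ Fk k m v) {x : ℝ}
    (hx : x ∉ Set.Ioo (xw k u) (xw k v)) :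
    IntervalIntegrable (fun θ => rho k m θ * Real.log |x - XX k θ|) volume 0 π ∧
    beta k m ≤ (∫ θ in (0 : ℝ)..π, rho k m θ * Real.log |x - XX k θ|) + m * Real.log |x - 1| := by
  have hh := hk_pos h
  have hm1 : m ≤ 1 := by nlinarith
  set c := (x - (hk k - 1)) / hk k with hc
  have hxc : x = hk k - 1 + hk k * c := by
    rw [hc]
    field_simp
    ring
  rcases lt_or_ge |c| 1 with h1 | h1
  · -- on the band
    have h2 := abs_lt.1 h1
    have h3 : x = XX k (Real.arccos c) := by
      rw [XX, Real.cos_arccos h2.1.le h2.2.le, ← hxc]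
    rw [h3]
    exact ⟨int_in h, (V_in h).ge⟩
  · obtain ⟨w, hw1, hw2, hw3, hw4⟩ := joukowski h1
    have h3 : x = xw k w := by
      rw [xw, hw4]
      rw [hxc]
      ring
    have hwk : w ≠ k := by
      rintro rfl
      apply hx
      rw [h3]
      exact ⟨xw_lt h hu1.le huk, xw_lt h h.le hkv⟩
    rw [h3]
    refine ⟨int_out h hw1, ?_⟩
    rw [V_out h hw1 hwk]
    have hF : 0 ≤ Fk k m w := by
      rcases le_total 0 c with h4 | h4
      · have h5 := hw2 h4
        rcases lt_or_gt_of_ne hwk with h6 | h6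
        · -- w < k, so w ≤ u
          have h7 : w ≤ u := by
            by_contra hcon
            push Not at hcon
            apply hx
            rw [h3]
            exact ⟨xw_lt h hu1.le hcon, xw_lt h h5 (h6.trans hkv)⟩
          rcases eq_or_lt_of_le h5 with h8 | h8
          · rw [← h8, Fk_one]
          · rcases eq_or_lt_of_le h7 with h9 | h9
            · rw [h9]
              exact hFu
            · exact (Fk_pos_between h hm h8 h9 huk hFu).le
        · have h7 : v ≤ w := by
            by_contra hcon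
            push Not at hcon
            apply hx
            rw [h3]
            exact ⟨xw_lt h hu1.le (huk.trans h6), xw_lt h h5 hcon⟩
          rcases eq_or_lt_of_le h7 with h9 | h9
          · rw [← h9]
            exact hFv
          · exact hFv.trans ((Fk_strictMonoOn h hm0) hkv h6 h9).le
      · exact Fk_nonneg_neg h hm0 hm1 (hw3 h4)
    linarith

theorem XX_antitone {k : ℝ} (h : 1 < k) : AntitoneOn (XX k) (Set.Icc 0 π) := by
  intro s hs t ht hst
  unfold XX
  have h1 : Real.cos t ≤ Real.cos s :=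
    Real.strictAntiOn_cos.antitoneOn ⟨hs.1, hs.2⟩ ⟨ht.1, ht.2⟩ hst
  have := hk_pos h
  nlinarith

theorem XX_mem {k : ℝ} (h : 1 < k) (θ : ℝ) : XX k θ ∈ Set.Icc (-1 : ℝ) 1 := by
  have h1 := hk_pos h
  have h2 := hk_lt_one h
  have h3 := Real.cos_le_one θ
  have h4 := Real.neg_one_le_cos θ
  unfold XX
  constructor <;> nlinarith

/-- sublevel set of the monic polynomial with the given roots -/
def sub (S : Multiset ℝ) : Set ℝ := {x | |(S.map fun t => x - t).prod| < 1}

/-- **One step of the upper bound.** -/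
theorem upper_step {k u v : ℝ} (h : 1 < k) (hu1 : 1 < u) (huk : u < k) (hkv : k < v)
    {p₀ q₀ : ℕ} (hp : 0 < p₀) (hpq : p₀ < q₀)
    (hm : ((p₀ : ℝ) / q₀) * (k + 1) < k - 1) (hβ : 0 < beta k ((p₀ : ℝ) / q₀))
    (hFu : 0 ≤ Fk k ((p₀ : ℝ) / q₀) u) (hFv : 0 ≤ Fk k ((p₀ : ℝ) / q₀) v) {ε : ℝ} (hε : 0 < ε) :
    ∃ S : Multiset ℝ, S ≠ 0 ∧ (∀ t ∈ S, t ∈ Set.Icc (-1 : ℝ) 1) ∧
      volume (sub S) ≤ ENNReal.ofReal (xw k v - xw k u + ε) := by
  have hpi := Real.pi_pos
  set m : ℝ := (p₀ : ℝ) / q₀ with hmdef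
  set β := beta k m with hβdef
  have hq0 : (0 : ℝ) < q₀ := by exact_mod_cast (hp.trans hpq)
  have hp0 : (0 : ℝ) < p₀ := by exact_mod_cast hp
  have hm0 : 0 < m := div_pos hp0 hq0
  have hm1 : m < 1 := by
    rw [hmdef, div_lt_one hq0]
    exact_mod_cast hpq
  -- choice of the degree
  have hlim1 : Tendsto (fun s : ℕ => (((q₀ * s : ℕ) : ℝ) * Real.exp (-(β / 4 * ((q₀ * s : ℕ) : ℝ)))))
      atTop (𝓝 0) := by
    have h1 : Tendsto (fun y : ℝ => y * Real.exp (-(β / 4 * y))) atTop (𝓝 0) := by
      have h2 := Real.tendsto_pow_mul_exp_neg_atTop_nhds_zero 1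
      have h3 : Tendsto (fun y : ℝ => β / 4 * y) atTop atTop :=
        tendsto_id.const_mul_atTop (by positivity)
      have h4 := (h2.comp h3).const_mul (4 / β)
      rw [mul_zero] at h4
      refine h4.congr fun y => ?_
      simp only [Function.comp, pow_one]
      field_simp
    have h5 : Tendsto (fun s : ℕ => ((q₀ * s : ℕ) : ℝ)) atTop atTop := by
      apply tendsto_natCast_atTop_atTop.comp
      exact tendsto_id.const_mul_atTop' (hp.trans hpq)
    exact h1.comp h5
  have hlim2 : Tendsto (fun s : ℕ => ((q₀ * s : ℕ) : ℝ) * β) atTop atTop := by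
    have h5 : Tendsto (fun s : ℕ => ((q₀ * s : ℕ) : ℝ)) atTop atTop := by
      apply tendsto_natCast_atTop_atTop.comp
      exact tendsto_id.const_mul_atTop' (hp.trans hpq)
    exact h5.atTop_mul_const hβ
  obtain ⟨s, hs1, hs2, hs3⟩ := ((hlim1.eventually (gt_mem_nhds (show 0 < ε / 4 by positivity))).and
    ((hlim2.eventually_ge_atTop (2 * Real.log 2)).and (eventually_ge_atTop 1))).exists
  set N : ℕ := q₀ * s with hN
  set n : ℕ := (q₀ - p₀) * s with hn
  set M₀ : ℕ := p₀ * s with hM₀
  have hspos : 0 < s := hs3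
  have hn0 : 0 < n := Nat.mul_pos (by omega) hspos
  have hnr : (0 : ℝ) < n := by exact_mod_cast hn0
  have hN0 : (0 : ℝ) < N := by
    have : 0 < N := Nat.mul_pos (hp.trans hpq) hspos
    exact_mod_cast this
  have hnN : (n : ℝ) = (1 - m) * N := by
    rw [hn, hN, hmdef]
    push_cast [Nat.cast_sub hpq.le]
    field_simp
  have hMN : (M₀ : ℝ) = m * N := by
    rw [hM₀, hN, hmdef]
    push_cast
    field_simp
  have hnle : n + 1 ≤ 2 * N := by
    have h1 : n ≤ N := by
      rw [hn, hN]
      exact Nat.mul_le_mul_right s (Nat.sub_le _ _)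
    have h2 : 1 ≤ N := Nat.mul_pos (hp.trans hpq) hspos
    omega
  set r : ℝ := Real.exp (-(β / 4 * (N : ℝ))) with hr
  have hr0 : 0 < r := Real.exp_pos _
  have hr1 : r ≤ 1 := by
    rw [hr, Real.exp_le_one_iff]
    have : 0 ≤ β / 4 * (N : ℝ) := by positivity
    linarith
  -- division points
  obtain ⟨θ, hθmem, hθ0, hθn, hθmono, hθmass⟩ := exists_division (ρ := rho k m) hpi.le
    (by linarith : 0 < 1 - m) (fun t _ => rho_nonneg h hm0.le hm.le)
    ((continuous_rho h).intervalIntegrable _ _) (integral_rho h) hn0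
  have hδ : (1 - m) / n = 1 / N := by
    rw [hnN]
    have : 1 - m ≠ 0 := by linarith
    field_simp
  refine ⟨(Multiset.range (n + 1)).map (fun j => XX k (θ j)) + Multiset.replicate M₀ 1,
    ?_, ?_, ?_⟩
  · intro h0
    have := congrArg Multiset.card h0
    simp at this
  · intro t ht
    rw [Multiset.mem_add] at ht
    rcases ht with ht | ht
    · rw [Multiset.mem_map] at ht
      obtain ⟨j, -, rfl⟩ := ht
      exact XX_mem h _
    · rw [Multiset.eq_of_mem_replicate ht]
      norm_num
  · -- the main inclusion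
    have hincl : sub ((Multiset.range (n + 1)).map (fun j => XX k (θ j)) + Multiset.replicate M₀ 1)
        ⊆ Set.Ioo (xw k u) (xw k v) ∪
          ⋃ j ∈ Finset.range (n + 1), Set.Ioo (XX k (θ j) - r) (XX k (θ j) + r) := by
      intro x hx
      by_contra hcon
      rw [Set.mem_union, not_or] at hcon
      obtain ⟨hx1, hx2⟩ := hcon
      have hdist : ∀ j ≤ n, r ≤ |x - XX k (θ j)| := by
        intro j hj
        by_contra hlt
        push Not at hlt
        apply hx2
        simp only [Set.mem_iUnion, Finset.mem_range]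
        rw [abs_lt] at hlt
        exact ⟨j, by omega, by constructor <;> linarith [hlt.1, hlt.2]⟩
      have hx1' : x ≠ 1 := by
        rintro rfl
        apply hx1
        have := xw_k h
        constructor
        · have h1 := xw_lt h hu1.le huk
          linarith
        · have h1 := xw_lt h h.le hkv
          linarith
      obtain ⟨hI, hV⟩ := V_ge h hu1 huk hkv hm0.le hm hFu hFv hx1
      have hdis := discr (X := XX k) (ρ := rho k m) (x := x) (r := r) (δ := 1 / N) (C := 2)
        (n := n) (θ := θ) hpi.le (XX_antitone h) (fun t _ => rho_nonneg h hm0.le hm.le)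
        ((continuous_rho h).intervalIntegrable _ _) hI one_le_two (by
          have h1 := XX_mem h 0
          have h2 := XX_mem h π
          linarith [h1.2, h2.1]) hθmem hθ0 hθn hθmono (by positivity) (fun j hj => by
          rw [hθmass j hj, hδ]) hr0 hr1 hdist
      -- the logarithm of the polynomial
      have hprod : |((((Multiset.range (n + 1)).map (fun j => XX k (θ j))
          + Multiset.replicate M₀ 1)).map fun t => x - t).prod|
          = (∏ j ∈ Finset.range (n + 1), |x - XX k (θ j)|) * |x - 1| ^ M₀ := by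
        rw [Multiset.map_add, Multiset.prod_add, Multiset.map_replicate, Multiset.prod_replicate,
          Multiset.map_map, abs_mul, abs_pow]
        congr 1
        rw [← Finset.abs_prod]
        rfl
      have hpos1 : ∀ j ∈ Finset.range (n + 1), 0 < |x - XX k (θ j)| := fun j hj =>
        hr0.trans_le (hdist j (by rw [Finset.mem_range] at hj; omega))
      have hpos2 : 0 < |x - 1| := abs_pos.2 (sub_ne_zero.2 hx1')
      have hlog : Real.log ((∏ j ∈ Finset.range (n + 1), |x - XX k (θ j)|) * |x - 1| ^ M₀)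
          = ∑ j ∈ Finset.range (n + 1), Real.log |x - XX k (θ j)| + M₀ * Real.log |x - 1| := by
        rw [Real.log_mul (Finset.prod_pos hpos1).ne' (pow_pos hpos2 _).ne', Real.log_pow,
          Real.log_prod fun j hj => (hpos1 j hj).ne']
      have hge : 0 ≤ Real.log ((∏ j ∈ Finset.range (n + 1), |x - XX k (θ j)|) * |x - 1| ^ M₀) := by
        rw [hlog, hMN]
        have hlr : Real.log r = -(β / 4 * (N : ℝ)) := by rw [hr, Real.log_exp]
        rw [hlr] at hdis
        have h1 : (N : ℝ) * (∫ t in (0 : ℝ)..π, rho k m t * Real.log |x - XX k t|) ≤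
            ∑ j ∈ Finset.range (n + 1), Real.log |x - XX k (θ j)| + Real.log 2
              - 2 * -(β / 4 * (N : ℝ)) := by
          have h2 := mul_le_mul_of_nonneg_left hdis hN0.le
          rwa [← mul_assoc, mul_one_div_cancel hN0.ne', one_mul] at h2
        have h3 := mul_le_mul_of_nonneg_left hV hN0.le
        rw [mul_add] at h3
        have h4 : (N : ℝ) * (m * Real.log |x - 1|) = m * N * Real.log |x - 1| := by ring
        rw [h4] at h3
        have h5 : 2 * Real.log 2 ≤ (N : ℝ) * β := hs2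
        have h6 : (N : ℝ) * beta k m = (N : ℝ) * β := rfl
        rw [h6] at h3
        nlinarith
      have hone : 1 ≤ (∏ j ∈ Finset.range (n + 1), |x - XX k (θ j)|) * |x - 1| ^ M₀ := by
        have hpos3 : 0 < (∏ j ∈ Finset.range (n + 1), |x - XX k (θ j)|) * |x - 1| ^ M₀ :=
          mul_pos (Finset.prod_pos hpos1) (pow_pos hpos2 _)
        rw [← Real.exp_log hpos3]
        exact Real.one_le_exp hge
      have hx' : |((((Multiset.range (n + 1)).map (fun j => XX k (θ j))
          + Multiset.replicate M₀ 1)).map fun t => x - t).prod| < 1 := hx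
      rw [hprod] at hx'
      linarith
    refine (measure_mono hincl).trans ((measure_union_le _ _).trans ?_)
    rw [Real.volume_Ioo, ENNReal.ofReal_add (by
      have := xw_lt h hu1.le (huk.trans hkv)
      linarith) hε.le]
    refine add_le_add le_rfl ?_
    refine (measure_biUnion_finset_le _ _).trans ?_
    have h1 : ∀ j ∈ Finset.range (n + 1), volume (Set.Ioo (XX k (θ j) - r) (XX k (θ j) + r))
        = ENNReal.ofReal (2 * r) := by
      intro j _
      rw [Real.volume_Ioo]
      congr 1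
      ring
    rw [Finset.sum_congr rfl h1, Finset.sum_const, Finset.card_range, nsmul_eq_mul,
      ← ENNReal.ofReal_natCast, ← ENNReal.ofReal_mul (by positivity)]
    refine ENNReal.ofReal_le_ofReal ?_
    have h2 : ((n + 1 : ℕ) : ℝ) ≤ 2 * N := by exact_mod_cast hnle
    have h3 : (N : ℝ) * r < ε / 4 := hs1
    nlinarith

theorem continuousAt_xw {k w : ℝ} (hw : w ≠ 0) : ContinuousAt (xw k) w := by
  unfold xw
  exact continuousAt_const.add (continuousAt_const.mul (continuousAt_id.add
    (continuousAt_inv₀ hw)))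

/-- **The upper bound.** For every admissible triple the infimum of the lengths is at most the
length of the main component. -/
theorem upper_bound {k m u v : ℝ} (h : 1 < k) (hu1 : 1 < u) (huk : u < k) (hkv : k < v)
    (hβ : beta k m = 0) (hFu : Fk k m u = 0) (hFv : Fk k m v = 0) {ε : ℝ} (hε : 0 < ε) :
    ∃ S : Multiset ℝ, S ≠ 0 ∧ (∀ t ∈ S, t ∈ Set.Icc (-1 : ℝ) 1) ∧
      volume (sub S) ≤ ENNReal.ofReal (xw k v - xw k u + ε) := by
  have hlogk : 0 < Real.log k := Real.log_pos h
  have hh := hk_pos h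
  have hh1 := hk_lt_one h
  have hm0 : 0 < m := by
    have h1 : Real.log (hk k / 2) < 0 := Real.log_neg (by positivity) (by linarith)
    have h2 : m * Real.log k = -Real.log (hk k / 2) := by
      unfold beta at hβ
      linarith
    by_contra hcon
    push Not at hcon
    nlinarith
  have hm := lt_of_root h hu1 huk hFu
  -- perturb the points
  have hcu : ∀ᶠ w in 𝓝[<] u, xw k u - ε / 4 < xw k w :=
    (continuousAt_xw (k := k) (by linarith : u ≠ 0)).continuousWithinAt.eventually
      (lt_mem_nhds (by linarith))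
  have hcu1 : ∀ᶠ w in 𝓝[<] u, 1 < w := nhdsWithin_le_nhds (lt_mem_nhds hu1)
  obtain ⟨u', ⟨hu'1, hu'2⟩, hu'3⟩ := ((hcu.and hcu1).and self_mem_nhdsWithin).exists
  have hcv : ∀ᶠ w in 𝓝[>] v, xw k w < xw k v + ε / 4 :=
    (continuousAt_xw (k := k) (by linarith : v ≠ 0)).continuousWithinAt.eventually
      (gt_mem_nhds (by linarith))
  obtain ⟨v', hv'1, hv'2⟩ := (hcv.and self_mem_nhdsWithin).exists
  have hu'3 : u' < u := hu'3
  have hv'2 : v < v' := hv'2
  have hF1 : 0 < Fk k m u' := Fk_pos_between h hm hu'2 hu'3 huk hFu.ge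
  have hF2 : 0 < Fk k m v' := by
    have := (Fk_strictMonoOn h hm0.le) (Set.mem_Ioi.2 hkv) (Set.mem_Ioi.2 (hkv.trans hv'2)) hv'2
    linarith
  -- perturb the mass
  have hcont : ∀ w, Continuous fun m' => Fk k m' w := by
    intro w
    unfold Fk
    fun_prop
  have he1 : ∀ᶠ m' in 𝓝[>] m, 0 < Fk k m' u' :=
    nhdsWithin_le_nhds ((hcont u').continuousAt.eventually (lt_mem_nhds hF1))
  have he2 : ∀ᶠ m' in 𝓝[>] m, 0 < Fk k m' v' :=
    nhdsWithin_le_nhds ((hcont v').continuousAt.eventually (lt_mem_nhds hF2))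
  have he3 : ∀ᶠ m' in 𝓝[>] m, m' * (k + 1) < k - 1 :=
    nhdsWithin_le_nhds ((by fun_prop : Continuous fun m' : ℝ => m' * (k + 1)).continuousAt.eventually
      (gt_mem_nhds hm))
  obtain ⟨c, hc, hcI⟩ := (mem_nhdsGT_iff_exists_Ioo_subset).1 ((he1.and he2).and he3)
  obtain ⟨y, hy1, hy2⟩ := exists_rat_btwn (Set.mem_Ioi.1 hc)
  obtain ⟨⟨hy3, hy4⟩, hy5⟩ := hcI ⟨hy1, hy2⟩
  have hy0 : 0 < y := by
    have : (0 : ℝ) < y := hm0.trans hy1
    exact_mod_cast this
  have hy00 : (0 : ℝ) < y := by exact_mod_cast hy0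
  have hy6 : (y : ℝ) < 1 := by
    by_contra hcon
    push Not at hcon
    nlinarith
  have hyq : (y : ℝ) = ((y.num.toNat : ℕ) : ℝ) / (y.den : ℝ) := by
    have h1 : ((y.num.toNat : ℕ) : ℤ) = y.num := Int.toNat_of_nonneg (Rat.num_nonneg.2 hy0.le)
    have h2 : ((y.num.toNat : ℕ) : ℝ) = (y.num : ℝ) := by exact_mod_cast h1
    rw [h2]
    exact_mod_cast (Rat.num_div_den y).symm
  have hnum : 0 < y.num.toNat := by
    have := Rat.num_pos.2 hy0
    omega
  have hden : (0 : ℝ) < y.den := by exact_mod_cast y.den_pos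
  have hlt : y.num.toNat < y.den := by
    rw [hyq, div_lt_one hden] at hy6
    exact_mod_cast hy6
  have hβ' : 0 < beta k (y : ℝ) := by
    have h1 : beta k (y : ℝ) = beta k m + ((y : ℝ) - m) * Real.log k := by
      unfold beta
      ring
    rw [h1, hβ, zero_add]
    exact mul_pos (by linarith) hlogk
  rw [hyq] at hy3 hy4 hy5 hβ'
  obtain ⟨S, hS1, hS2, hS3⟩ := upper_step h hu'2 (hu'3.trans huk) (hkv.trans hv'2) hnum hlt hy5 hβ'
    hy3.le hy4.le (show 0 < ε / 2 by positivity)
  refine ⟨S, hS1, hS2, hS3.trans (ENNReal.ofReal_le_ofReal ?_)⟩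
  linarith

/-- the length of the main component -/
theorem length_eq {k u v : ℝ} (hu : u ≠ 0) (hv : v ≠ 0) :
    xw k v - xw k u = 2 * k / (k + 1) ^ 2 * ((v - u) * (1 - 1 / (u * v))) := by
  unfold xw hk
  field_simp
  ring

end Pool.Agent.Helper63.E38
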