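import Mathlib

/-!
# Logarithmic potentials of the equilibrium measure of an interval and of Poisson kernels
-/

set_option autoImplicit false

namespace Pool.Agent.Helper63.E38

open MeasureTheory Filter Topology Real InnerProductSpace

/-- The Poisson kernel of the unit disc at the real point `r`. -/
noncomputable def pk (r θ : ℝ) : ℝ := (1 - r ^ 2) / (1 + r ^ 2 - 2 * r * Real.cos θ)

theorem pk_den_pos {r : ℝ} (hr : |r| < 1) (θ : ℝ) : 0 < 1 + r ^ 2 - 2 * r * Real.cos θ := by
  have h1 : |r * Real.cos θ| ≤ |r| := by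
    rw [abs_mul]
    exact mul_le_of_le_one_right (abs_nonneg _) (Real.abs_cos_le_one θ)
  have h2 := (abs_le.1 h1).2
  have h3 : 0 < (1 - |r|) ^ 2 := by
    have : 0 < 1 - |r| := by linarith
    positivity
  have h4 : (1 - |r|) ^ 2 = 1 + r ^ 2 - 2 * |r| := by
    rw [sub_sq, sq_abs]
    ring
  nlinarith

theorem pk_num_pos {r : ℝ} (hr : |r| < 1) : 0 < 1 - r ^ 2 := by
  have : r ^ 2 < 1 := by
    rw [← sq_abs]
    nlinarith [abs_nonneg r]
  linarith

theorem pk_pos {r : ℝ} (hr : |r| < 1) (θ : ℝ) : 0 < pk r θ :=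
  div_pos (pk_num_pos hr) (pk_den_pos hr θ)

theorem pk_zero (θ : ℝ) : pk 0 θ = 1 := by simp [pk]

theorem continuous_pk {r : ℝ} (hr : |r| < 1) : Continuous (pk r) := by
  unfold pk
  exact continuous_const.div (by fun_prop) fun θ => (pk_den_pos hr θ).ne'

theorem norm_sub_circleMap (r θ : ℝ) :
    ‖circleMap 0 1 θ - (r : ℂ)‖ ^ 2 = 1 + r ^ 2 - 2 * r * Real.cos θ := by
  rw [← Complex.normSq_eq_norm_sq, circleMap, Complex.normSq_apply]
  simp only [Complex.ofReal_one, one_mul, zero_add, Complex.sub_re, Complex.sub_im,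
    Complex.exp_ofReal_mul_I_re, Complex.exp_ofReal_mul_I_im, Complex.ofReal_re,
    Complex.ofReal_im, sub_zero]
  have := Real.sin_sq_add_cos_sq θ
  nlinarith

theorem poissonKernel_circleMap (r θ : ℝ) :
    poissonKernel 0 (r : ℂ) (circleMap 0 1 θ) = pk r θ := by
  rw [poissonKernel_def, sub_zero, sub_zero, norm_sub_circleMap, pk]
  simp

/-- Poisson integral of the logarithm of the distance to a point outside the closed disc. -/
theorem poisson_outside {a : ℂ} (ha : 1 < ‖a‖) {r : ℝ} (hr : |r| < 1) :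
    ∫ θ in (0 : ℝ)..2 * π, pk r θ * Real.log ‖circleMap 0 1 θ - a‖
      = 2 * π * Real.log ‖(r : ℂ) - a‖ := by
  have hharm : HarmonicOnNhd (fun z : ℂ => Real.log ‖z - a‖) (Metric.closedBall 0 1) := by
    intro z hz
    apply AnalyticAt.harmonicAt_log_norm (by fun_prop)
    rw [sub_ne_zero]
    rintro rfl
    rw [mem_closedBall_zero_iff] at hz
    linarith
  have h := hharm.circleAverage_poissonKernel_smul (w := (r : ℂ)) (by
    rw [mem_ball_zero_iff]
    simpa using hr)
  rw [circleAverage_def] at h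
  simp only [Pi.smul_apply', smul_eq_mul, poissonKernel_circleMap] at h
  rw [← h]
  have hpi : (2 * π) ≠ 0 := by positivity
  rw [mul_inv_cancel_left₀ hpi]

/-- The same for a point on the circle. -/
theorem poisson_circle {a : ℂ} (ha : ‖a‖ = 1) {r : ℝ} (hr : |r| < 1) :
    ∫ θ in (0 : ℝ)..2 * π, pk r θ * Real.log ‖circleMap 0 1 θ - a‖
      = 2 * π * Real.log ‖(r : ℂ) - a‖ := by
  -- approximation by points outside
  let b : ℕ → ℂ := fun n => ((1 + 1 / ((n : ℝ) + 1) : ℝ) : ℂ) * a
  have hbn : ∀ n, ‖b n‖ = 1 + 1 / ((n : ℝ) + 1) := by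
    intro n
    have : (0 : ℝ) < 1 / ((n : ℝ) + 1) := by positivity
    simp only [b, norm_mul, ha, mul_one, Complex.norm_real, Real.norm_eq_abs]
    rw [abs_of_pos (by linarith)]
  have hb : Tendsto b atTop (𝓝 a) := by
    have h1 : Tendsto (fun n : ℕ => (1 + 1 / ((n : ℝ) + 1) : ℝ)) atTop (𝓝 (1 + 0)) :=
      tendsto_const_nhds.add tendsto_one_div_add_atTop_nhds_zero_nat
    rw [add_zero] at h1
    have h2 := ((Complex.continuous_ofReal.tendsto _).comp h1).mul_const a
    rw [Complex.ofReal_one, one_mul] at h2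
    exact h2
  have hbd : ∀ n θ, ‖circleMap 0 1 θ - a‖ ≤ 2 * ‖circleMap 0 1 θ - b n‖ := by
    intro n θ
    have h1 : ‖circleMap 0 1 θ - a‖ ≤ ‖circleMap 0 1 θ - b n‖ + ‖b n - a‖ := norm_sub_le_norm_sub_add_norm_sub _ _ _
    have h2 : ‖b n - a‖ = 1 / ((n : ℝ) + 1) := by
      have : b n - a = ((1 / ((n : ℝ) + 1) : ℝ) : ℂ) * a := by
        simp only [b]
        push_cast
        ring
      rw [this, norm_mul, ha, mul_one, Complex.norm_real, Real.norm_eq_abs, abs_of_pos (by positivity)]
    have h3 : ‖b n‖ - ‖circleMap 0 1 θ‖ ≤ ‖circleMap 0 1 θ - b n‖ := by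
      rw [norm_sub_rev]
      exact norm_sub_norm_le _ _
    rw [hbn] at h3
    have h4 : ‖circleMap 0 1 θ‖ = 1 := by simp
    rw [h4] at h3
    linarith
  have hint : IntervalIntegrable (fun θ => Real.log ‖circleMap 0 1 θ - a‖) volume 0 (2 * π) :=
    circleIntegrable_log_norm_sub_const (c := 0) (a := a) 1
  obtain ⟨C, hC⟩ : ∃ C, ∀ θ, |pk r θ| ≤ C := by
    refine ⟨(1 - r ^ 2) / (1 - |r|) ^ 2, fun θ => ?_⟩
    rw [abs_of_pos (pk_pos hr θ), pk]
    have h3 : 0 < (1 - |r|) ^ 2 := by
      have : 0 < 1 - |r| := by linarith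
      positivity
    refine div_le_div_of_nonneg_left (pk_num_pos hr).le h3 ?_
    have h1 : |r * Real.cos θ| ≤ |r| := by
      rw [abs_mul]
      exact mul_le_of_le_one_right (abs_nonneg _) (Real.abs_cos_le_one θ)
    have h2 := (abs_le.1 h1).2
    have h4 : (1 - |r|) ^ 2 = 1 + r ^ 2 - 2 * |r| := by
      rw [sub_sq, sq_abs]
      ring
    nlinarith
  have hae : ∀ᵐ θ : ℝ ∂volume.restrict (Set.uIoc 0 (2 * π)), circleMap 0 1 θ ≠ a := by
    have hcount : (circleMap 0 1 ⁻¹' {a} : Set ℝ).Countable :=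
      (Set.countable_singleton a).preimage_circleMap 0 one_ne_zero
    exact ae_restrict_of_ae (by
      rw [ae_iff]
      refine measure_mono_null (fun θ hθ => ?_) (hcount.measure_zero volume)
      simpa using hθ)
  have hlim : Tendsto (fun n => ∫ θ in (0 : ℝ)..2 * π, pk r θ * Real.log ‖circleMap 0 1 θ - b n‖)
      atTop (𝓝 (∫ θ in (0 : ℝ)..2 * π, pk r θ * Real.log ‖circleMap 0 1 θ - a‖)) := by
    apply intervalIntegral.tendsto_integral_filter_of_dominated_convergence
      (fun θ => C * (|Real.log ‖circleMap 0 1 θ - a‖| + Real.log 6))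
    · refine Eventually.of_forall fun n => ?_
      apply Measurable.aestronglyMeasurable
      apply Measurable.mul
      · exact (continuous_pk hr).measurable
      · exact Real.measurable_log.comp (by fun_prop)
    · refine Eventually.of_forall fun n => ?_
      have hae' := (ae_restrict_iff' (measurableSet_uIoc)).1 hae
      filter_upwards [hae'] with θ hθ hmem
      have hne := hθ hmem
      rw [norm_mul, Real.norm_eq_abs, Real.norm_eq_abs]
      have hC0 : 0 ≤ C := (abs_nonneg _).trans (hC 0)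
      refine mul_le_mul (hC θ) ?_ (abs_nonneg _) hC0
      have hpos : 0 < ‖circleMap 0 1 θ - a‖ := norm_pos_iff.2 (sub_ne_zero.2 hne)
      have hpos' : 0 < ‖circleMap 0 1 θ - b n‖ := by linarith [hbd n θ]
      have hle3 : ‖circleMap 0 1 θ - b n‖ ≤ 3 := by
        calc ‖circleMap 0 1 θ - b n‖ ≤ ‖circleMap 0 1 θ‖ + ‖b n‖ := norm_sub_le _ _
          _ ≤ 1 + (1 + 1) := by
            rw [hbn]
            have h4 : ‖circleMap 0 1 θ‖ = 1 := by simp
            have h5 : 1 / ((n : ℝ) + 1) ≤ 1 := by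
              rw [div_le_one (by positivity)]
              linarith [(Nat.cast_nonneg n : (0 : ℝ) ≤ n)]
            rw [h4]
            linarith
          _ = 3 := by norm_num
      have hlog6 : Real.log 6 = Real.log 2 + Real.log 3 := by
        rw [← Real.log_mul (by norm_num) (by norm_num)]
        norm_num
      have hl2 : 0 < Real.log 2 := Real.log_pos (by norm_num)
      have hl3 : 0 < Real.log 3 := Real.log_pos (by norm_num)
      rw [abs_le]
      constructor
      · have h6 : Real.log ‖circleMap 0 1 θ - a‖ ≤ Real.log 2 + Real.log ‖circleMap 0 1 θ - b n‖ := by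
          rw [← Real.log_mul (by norm_num) hpos'.ne']
          exact Real.log_le_log hpos (hbd n θ)
        have h7 := neg_abs_le (Real.log ‖circleMap 0 1 θ - a‖)
        linarith
      · have h6 := Real.log_le_log hpos' hle3
        linarith [abs_nonneg (Real.log ‖circleMap 0 1 θ - a‖)]
    · exact (hint.abs.add intervalIntegrable_const).const_mul C
    · have hae' := (ae_restrict_iff' (measurableSet_uIoc)).1 hae
      filter_upwards [hae'] with θ hθ hmem
      have hne := hθ hmem
      refine Tendsto.const_mul _ ?_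
      refine ((Real.continuousAt_log ?_).tendsto).comp ?_
      · exact (norm_pos_iff.2 (sub_ne_zero.2 hne)).ne'
      · exact (tendsto_const_nhds.sub hb).norm
  have hrhs : Tendsto (fun n => ∫ θ in (0 : ℝ)..2 * π, pk r θ * Real.log ‖circleMap 0 1 θ - b n‖)
      atTop (𝓝 (2 * π * Real.log ‖(r : ℂ) - a‖)) := by
    have h1 : (fun n => ∫ θ in (0 : ℝ)..2 * π, pk r θ * Real.log ‖circleMap 0 1 θ - b n‖)
        = fun n => 2 * π * Real.log ‖(r : ℂ) - b n‖ := by
      funext n
      exact poisson_outside (by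
        rw [hbn]
        have : (0 : ℝ) < 1 / ((n : ℝ) + 1) := by positivity
        linarith) hr
    rw [h1]
    refine Tendsto.const_mul _ ?_
    refine ((Real.continuousAt_log ?_).tendsto).comp ((tendsto_const_nhds.sub hb).norm)
    apply (norm_pos_iff.2 (sub_ne_zero.2 _)).ne'
    rintro rfl
    rw [Complex.norm_real, Real.norm_eq_abs] at ha
    linarith
  exact tendsto_nhds_unique hlim hrhs

theorem poisson_ge {a : ℂ} (ha : 1 ≤ ‖a‖) {r : ℝ} (hr : |r| < 1) :
    ∫ θ in (0 : ℝ)..2 * π, pk r θ * Real.log ‖circleMap 0 1 θ - a‖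
      = 2 * π * Real.log ‖(r : ℂ) - a‖ := by
  rcases eq_or_lt_of_le ha with h | h
  · exact poisson_circle h.symm hr
  · exact poisson_outside h hr

/-- halving the interval -/
theorem integral_half {f : ℝ → ℝ} (hf : ∀ θ, f (2 * π - θ) = f θ)
    (hint : IntervalIntegrable f volume 0 (2 * π)) :
    ∫ θ in (0 : ℝ)..2 * π, f θ = 2 * ∫ θ in (0 : ℝ)..π, f θ := by
  have hpi := Real.pi_pos
  have h1 : IntervalIntegrable f volume 0 π := hint.mono_set (by
    rw [Set.uIcc_of_le hpi.le, Set.uIcc_of_le (by linarith)]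
    exact Set.Icc_subset_Icc_right (by linarith))
  have h2 : IntervalIntegrable f volume π (2 * π) := hint.mono_set (by
    rw [Set.uIcc_of_le (by linarith), Set.uIcc_of_le (by linarith)]
    exact Set.Icc_subset_Icc_left hpi.le)
  have h3 : ∫ θ in π..2 * π, f θ = ∫ θ in (0 : ℝ)..π, f θ := by
    have h4 := intervalIntegral.integral_comp_sub_left (a := 0) (b := π) f (2 * π)
    have e1 : 2 * π - π = π := by ring
    rw [e1, sub_zero] at h4
    rw [← h4]
    exact intervalIntegral.integral_congr fun θ _ => hf θ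
  rw [← intervalIntegral.integral_add_adjacent_intervals h1 h2, h3]
  ring

theorem intervalIntegrable_log (a : ℂ) {r : ℝ} (hr : |r| < 1) :
    IntervalIntegrable (fun θ => pk r θ * Real.log ‖circleMap 0 1 θ - a‖) volume 0 (2 * π) := by
  have hint : IntervalIntegrable (fun θ => Real.log ‖circleMap 0 1 θ - a‖) volume 0 (2 * π) :=
    circleIntegrable_log_norm_sub_const (c := 0) (a := a) 1
  exact hint.continuousOn_mul (continuous_pk hr).continuousOn

theorem integral_pk {r : ℝ} (hr : |r| < 1) : ∫ θ in (0 : ℝ)..2 * π, pk r θ = 2 * π := by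
  have hharm : HarmonicOnNhd (fun _ : ℂ => (1 : ℝ)) (Metric.closedBall 0 1) := by
    intro z hz
    exact harmonicAt_const 1
  have h := hharm.circleAverage_poissonKernel_smul (w := (r : ℂ)) (by
    rw [mem_ball_zero_iff]
    simpa using hr)
  rw [circleAverage_def] at h
  simp only [Pi.smul_apply', smul_eq_mul, poissonKernel_circleMap, mul_one] at h
  have hpi : (2 * π) ≠ 0 := by positivity
  field_simp at h
  linarith

/-- the real part of the distance identity -/
theorem dist_real {w : ℝ} (hw : w ≠ 0) (θ : ℝ) :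
    |w + w⁻¹ - 2 * Real.cos θ| = ‖circleMap 0 1 θ - (w : ℂ)‖ ^ 2 * |w|⁻¹ := by
  rw [norm_sub_circleMap, ← abs_inv]
  have h0 : 0 ≤ 1 + w ^ 2 - 2 * w * Real.cos θ := by
    rw [← norm_sub_circleMap]
    positivity
  rw [← abs_of_nonneg h0, ← abs_mul]
  congr 1
  field_simp
  ring

theorem norm_conj_circle (α θ : ℝ) :
    ‖circleMap 0 1 θ - circleMap 0 1 α‖ * ‖circleMap 0 1 θ - circleMap 0 1 (-α)‖
      = |2 * Real.cos α - 2 * Real.cos θ| := by
  have h : ∀ α θ : ℝ, ‖circleMap 0 1 θ - circleMap 0 1 α‖ ^ 2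
      = 2 - 2 * Real.cos (θ - α) := by
    intro α θ
    rw [← Complex.normSq_eq_norm_sq, circleMap, circleMap, Complex.normSq_apply, Real.cos_sub]
    simp only [Complex.ofReal_one, one_mul, zero_add, Complex.sub_re, Complex.sub_im,
      Complex.exp_ofReal_mul_I_re, Complex.exp_ofReal_mul_I_im]
    have h1 := Real.sin_sq_add_cos_sq θ
    have h2 := Real.sin_sq_add_cos_sq α
    nlinarith
  have h1 := h α θ
  have h2 := h (-α) θ
  rw [← abs_of_nonneg (mul_nonneg (norm_nonneg (circleMap 0 1 θ - circleMap 0 1 α))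
    (norm_nonneg (circleMap 0 1 θ - circleMap 0 1 (-α)))), ← sq_eq_sq_iff_abs_eq_abs, mul_pow, h1, h2,
    sub_neg_eq_add, Real.cos_sub, Real.cos_add]
  have h3 := Real.sin_sq_add_cos_sq θ
  have h4 := Real.sin_sq_add_cos_sq α
  have e : (2 - 2 * (Real.cos θ * Real.cos α + Real.sin θ * Real.sin α)) *
      (2 - 2 * (Real.cos θ * Real.cos α - Real.sin θ * Real.sin α))
      = 4 * ((1 - Real.cos θ * Real.cos α) ^ 2 - Real.sin θ ^ 2 * Real.sin α ^ 2) := by ring
  rw [e]
  have h5 : Real.sin θ ^ 2 = 1 - Real.cos θ ^ 2 := by linarith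
  have h6 : Real.sin α ^ 2 = 1 - Real.cos α ^ 2 := by linarith
  rw [h5, h6]
  ring

/-- **Potential at a point outside the interval.** -/
theorem pot_out {h w r : ℝ} (hh : 0 < h) (hw : 1 ≤ |w|) (hr : |r| < 1) :
    ∫ θ in (0 : ℝ)..π, pk r θ * Real.log |h / 2 * (w + w⁻¹) - h * Real.cos θ|
      = π * (Real.log (h / 2) - Real.log |w| + 2 * Real.log |w - r|) := by
  have hw0 : w ≠ 0 := by
    rintro rfl
    simp at hw
    linarith
  have hwr : 0 < |w - r| := by
    have := abs_sub_abs_le_abs_sub w r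
    linarith
  have e1 : ∀ θ, circleMap 0 1 θ - (w : ℂ) ≠ 0 →
      pk r θ * Real.log |h / 2 * (w + w⁻¹) - h * Real.cos θ|
      = (Real.log (h / 2) - Real.log |w|) * pk r θ
        + 2 * (pk r θ * Real.log ‖circleMap 0 1 θ - (w : ℂ)‖) := by
    intro θ hne
    have e2 : h / 2 * (w + w⁻¹) - h * Real.cos θ = h / 2 * (w + w⁻¹ - 2 * Real.cos θ) := by ring
    rw [e2, abs_mul, dist_real hw0, abs_of_pos (by positivity : 0 < h / 2)]
    have hn : 0 < ‖circleMap 0 1 θ - (w : ℂ)‖ := norm_pos_iff.2 hne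
    rw [Real.log_mul (by positivity) (by positivity), Real.log_mul (by positivity) (by positivity),
      Real.log_pow, Real.log_inv]
    push_cast
    ring
  have hae : ∀ᵐ θ : ℝ, circleMap 0 1 θ - (w : ℂ) ≠ 0 := by
    have hcount : (circleMap 0 1 ⁻¹' {(w : ℂ)} : Set ℝ).Countable :=
      (Set.countable_singleton _).preimage_circleMap 0 one_ne_zero
    rw [ae_iff]
    refine measure_mono_null (fun θ hθ => ?_) (hcount.measure_zero volume)
    simp only [ne_eq, not_not, Set.mem_ofPred_eq, sub_eq_zero] at hθ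
    exact hθ
  have h1 : ∫ θ in (0 : ℝ)..2 * π, ((Real.log (h / 2) - Real.log |w|) * pk r θ
        + 2 * (pk r θ * Real.log ‖circleMap 0 1 θ - (w : ℂ)‖))
      = (Real.log (h / 2) - Real.log |w|) * (2 * π) + 2 * (2 * π * Real.log |w - r|) := by
    rw [intervalIntegral.integral_add (((continuous_pk hr).intervalIntegrable _ _).const_mul _)
      ((intervalIntegrable_log _ hr).const_mul 2), intervalIntegral.integral_const_mul,
      intervalIntegral.integral_const_mul, integral_pk hr,
      poisson_ge (by rw [Complex.norm_real]; exact hw) hr]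
    congr 3
    rw [← Complex.ofReal_sub, Complex.norm_real, Real.norm_eq_abs, abs_sub_comm]
  have h2 := integral_half (f := fun θ => (Real.log (h / 2) - Real.log |w|) * pk r θ
        + 2 * (pk r θ * Real.log ‖circleMap 0 1 θ - (w : ℂ)‖)) (by
      intro θ
      have hcos : Real.cos (2 * π - θ) = Real.cos θ := Real.cos_two_pi_sub θ
      have hn : ‖circleMap 0 1 (2 * π - θ) - (w : ℂ)‖ = ‖circleMap 0 1 θ - (w : ℂ)‖ := by
        rw [← abs_of_nonneg (norm_nonneg (circleMap 0 1 (2 * π - θ) - (w : ℂ))),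
          ← abs_of_nonneg (norm_nonneg (circleMap 0 1 θ - (w : ℂ))), ← sq_eq_sq_iff_abs_eq_abs,
          norm_sub_circleMap, norm_sub_circleMap, hcos]
      have hp : pk r (2 * π - θ) = pk r θ := by
        rw [pk, pk, hcos]
      simp only [hn, hp])
    ((((continuous_pk hr).intervalIntegrable _ _).const_mul _).add
      ((intervalIntegrable_log _ hr).const_mul 2))
  rw [h1] at h2
  have h3 : ∫ θ in (0 : ℝ)..π, pk r θ * Real.log |h / 2 * (w + w⁻¹) - h * Real.cos θ|
      = ∫ θ in (0 : ℝ)..π, ((Real.log (h / 2) - Real.log |w|) * pk r θ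
        + 2 * (pk r θ * Real.log ‖circleMap 0 1 θ - (w : ℂ)‖)) := by
    apply intervalIntegral.integral_congr_ae
    filter_upwards [hae] with θ hθ _
    exact e1 θ hθ
  rw [h3]
  linarith

/-- **Potential at a point of the interval.** -/
theorem pot_in {h α r : ℝ} (hh : 0 < h) (hr : |r| < 1) :
    ∫ θ in (0 : ℝ)..π, pk r θ * Real.log |h * Real.cos α - h * Real.cos θ|
      = π * (Real.log (h / 2) + Real.log (1 + r ^ 2 - 2 * r * Real.cos α)) := by
  have hae : ∀ β : ℝ, ∀ᵐ θ : ℝ, circleMap 0 1 θ - circleMap 0 1 β ≠ 0 := by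
    intro β
    have hcount : (circleMap 0 1 ⁻¹' {circleMap 0 1 β} : Set ℝ).Countable :=
      (Set.countable_singleton _).preimage_circleMap 0 one_ne_zero
    rw [ae_iff]
    refine measure_mono_null (fun θ hθ => ?_) (hcount.measure_zero volume)
    simp only [ne_eq, not_not, Set.mem_ofPred_eq, sub_eq_zero] at hθ
    exact hθ
  have hpoi : ∀ β : ℝ, ∫ θ in (0 : ℝ)..2 * π, pk r θ * Real.log ‖circleMap 0 1 θ - circleMap 0 1 β‖
      = π * Real.log (1 + r ^ 2 - 2 * r * Real.cos β) := by
    intro β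
    rw [poisson_circle (by simp) hr, ← norm_sub_circleMap r β, Real.log_pow, norm_sub_rev]
    push_cast
    ring
  have e1 : ∀ θ, circleMap 0 1 θ - circleMap 0 1 α ≠ 0 → circleMap 0 1 θ - circleMap 0 1 (-α) ≠ 0 →
      pk r θ * Real.log |h * Real.cos α - h * Real.cos θ|
      = Real.log (h / 2) * pk r θ
        + (pk r θ * Real.log ‖circleMap 0 1 θ - circleMap 0 1 α‖
          + pk r θ * Real.log ‖circleMap 0 1 θ - circleMap 0 1 (-α)‖) := by
    intro θ h1 h2
    have e2 : h * Real.cos α - h * Real.cos θ = h / 2 * (2 * Real.cos α - 2 * Real.cos θ) := by ring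
    rw [e2, abs_mul, ← norm_conj_circle, abs_of_pos (by positivity : 0 < h / 2)]
    have hn1 := norm_pos_iff.2 h1
    have hn2 := norm_pos_iff.2 h2
    rw [Real.log_mul (by positivity) (by positivity), Real.log_mul hn1.ne' hn2.ne']
    ring
  have hI1 := intervalIntegrable_log (circleMap 0 1 α) hr
  have hI2 := intervalIntegrable_log (circleMap 0 1 (-α)) hr
  have hI0 : IntervalIntegrable (fun θ => Real.log (h / 2) * pk r θ) volume 0 (2 * π) :=
    ((continuous_pk hr).intervalIntegrable _ _).const_mul _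
  have h1 : ∫ θ in (0 : ℝ)..2 * π, (Real.log (h / 2) * pk r θ
        + (pk r θ * Real.log ‖circleMap 0 1 θ - circleMap 0 1 α‖
          + pk r θ * Real.log ‖circleMap 0 1 θ - circleMap 0 1 (-α)‖))
      = Real.log (h / 2) * (2 * π) + 2 * (π * Real.log (1 + r ^ 2 - 2 * r * Real.cos α)) := by
    rw [intervalIntegral.integral_add hI0 (hI1.add hI2), intervalIntegral.integral_add hI1 hI2,
      intervalIntegral.integral_const_mul, integral_pk hr, hpoi, hpoi, Real.cos_neg]
    ring
  have hsymm : ∀ β θ : ℝ, ‖circleMap 0 1 (2 * π - θ) - circleMap 0 1 β‖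
      = ‖circleMap 0 1 θ - circleMap 0 1 (-β)‖ := by
    intro β θ
    have h : ∀ α θ : ℝ, ‖circleMap 0 1 θ - circleMap 0 1 α‖ ^ 2
        = 2 - 2 * Real.cos (θ - α) := by
      intro α θ
      rw [← Complex.normSq_eq_norm_sq, circleMap, circleMap, Complex.normSq_apply, Real.cos_sub]
      simp only [Complex.ofReal_one, one_mul, zero_add, Complex.sub_re, Complex.sub_im,
        Complex.exp_ofReal_mul_I_re, Complex.exp_ofReal_mul_I_im]
      have h1 := Real.sin_sq_add_cos_sq θ
      have h2 := Real.sin_sq_add_cos_sq α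
      nlinarith
    rw [← abs_of_nonneg (norm_nonneg (circleMap 0 1 (2 * π - θ) - circleMap 0 1 β)),
      ← abs_of_nonneg (norm_nonneg (circleMap 0 1 θ - circleMap 0 1 (-β))),
      ← sq_eq_sq_iff_abs_eq_abs, h, h]
    have : 2 * π - θ - β = 2 * π - (θ - -β) := by ring
    rw [this, Real.cos_two_pi_sub]
  have h2 := integral_half (f := fun θ => Real.log (h / 2) * pk r θ
        + (pk r θ * Real.log ‖circleMap 0 1 θ - circleMap 0 1 α‖
          + pk r θ * Real.log ‖circleMap 0 1 θ - circleMap 0 1 (-α)‖)) (by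
      intro θ
      have hcos : Real.cos (2 * π - θ) = Real.cos θ := Real.cos_two_pi_sub θ
      have hp : pk r (2 * π - θ) = pk r θ := by
        rw [pk, pk, hcos]
      simp only [hp, hsymm, neg_neg]
      ring)
    (hI0.add (hI1.add hI2))
  rw [h1] at h2
  have h3 : ∫ θ in (0 : ℝ)..π, pk r θ * Real.log |h * Real.cos α - h * Real.cos θ|
      = ∫ θ in (0 : ℝ)..π, (Real.log (h / 2) * pk r θ
        + (pk r θ * Real.log ‖circleMap 0 1 θ - circleMap 0 1 α‖
          + pk r θ * Real.log ‖circleMap 0 1 θ - circleMap 0 1 (-α)‖)) := by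
    apply intervalIntegral.integral_congr_ae
    filter_upwards [hae α, hae (-α)] with θ h4 h5 _
    exact e1 θ h4 h5
  rw [h3]
  linarith

/-- integrability of the logarithmic kernel -/
theorem integrable_pot_out {h w r : ℝ} (hh : 0 < h) (hw : 1 ≤ |w|) (hr : |r| < 1) :
    IntervalIntegrable (fun θ => pk r θ * Real.log |h / 2 * (w + w⁻¹) - h * Real.cos θ|)
      volume 0 π := by
  have hpi := Real.pi_pos
  have hw0 : w ≠ 0 := by
    rintro rfl
    simp at hw
    linarith
  have hae : ∀ᵐ θ : ℝ, circleMap 0 1 θ - (w : ℂ) ≠ 0 := by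
    have hcount : (circleMap 0 1 ⁻¹' {(w : ℂ)} : Set ℝ).Countable :=
      (Set.countable_singleton _).preimage_circleMap 0 one_ne_zero
    rw [ae_iff]
    refine measure_mono_null (fun θ hθ => ?_) (hcount.measure_zero volume)
    simp only [ne_eq, not_not, Set.mem_ofPred_eq, sub_eq_zero] at hθ
    exact hθ
  have hI : IntervalIntegrable (fun θ => (Real.log (h / 2) - Real.log |w|) * pk r θ
        + 2 * (pk r θ * Real.log ‖circleMap 0 1 θ - (w : ℂ)‖)) volume 0 (2 * π) :=
    (((continuous_pk hr).intervalIntegrable _ _).const_mul _).add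
      ((intervalIntegrable_log _ hr).const_mul 2)
  have hI' := hI.mono_set (show Set.uIcc 0 π ⊆ Set.uIcc 0 (2 * π) by
    rw [Set.uIcc_of_le hpi.le, Set.uIcc_of_le (by linarith)]
    exact Set.Icc_subset_Icc_right (by linarith))
  refine hI'.congr_ae (ae_restrict_of_ae ?_)
  filter_upwards [hae] with θ hne
  have e2 : h / 2 * (w + w⁻¹) - h * Real.cos θ = h / 2 * (w + w⁻¹ - 2 * Real.cos θ) := by ring
  rw [e2, abs_mul, dist_real hw0, abs_of_pos (by positivity : 0 < h / 2)]
  have hn : 0 < ‖circleMap 0 1 θ - (w : ℂ)‖ := norm_pos_iff.2 hne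
  rw [Real.log_mul (by positivity) (by positivity), Real.log_mul (by positivity) (by positivity),
    Real.log_pow, Real.log_inv]
  push_cast
  ring

theorem integrable_pot_in {h α r : ℝ} (hh : 0 < h) (hr : |r| < 1) :
    IntervalIntegrable (fun θ => pk r θ * Real.log |h * Real.cos α - h * Real.cos θ|)
      volume 0 π := by
  have hpi := Real.pi_pos
  have hae : ∀ β : ℝ, ∀ᵐ θ : ℝ, circleMap 0 1 θ - circleMap 0 1 β ≠ 0 := by
    intro β
    have hcount : (circleMap 0 1 ⁻¹' {circleMap 0 1 β} : Set ℝ).Countable :=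
      (Set.countable_singleton _).preimage_circleMap 0 one_ne_zero
    rw [ae_iff]
    refine measure_mono_null (fun θ hθ => ?_) (hcount.measure_zero volume)
    simp only [ne_eq, not_not, Set.mem_ofPred_eq, sub_eq_zero] at hθ
    exact hθ
  have hI1 := intervalIntegrable_log (circleMap 0 1 α) hr
  have hI2 := intervalIntegrable_log (circleMap 0 1 (-α)) hr
  have hI0 : IntervalIntegrable (fun θ => Real.log (h / 2) * pk r θ) volume 0 (2 * π) :=
    ((continuous_pk hr).intervalIntegrable _ _).const_mul _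
  have hI' := (hI0.add (hI1.add hI2)).mono_set (show Set.uIcc 0 π ⊆ Set.uIcc 0 (2 * π) by
    rw [Set.uIcc_of_le hpi.le, Set.uIcc_of_le (by linarith)]
    exact Set.Icc_subset_Icc_right (by linarith))
  refine hI'.congr_ae (ae_restrict_of_ae ?_)
  filter_upwards [hae α, hae (-α)] with θ h1 h2
  have e2 : h * Real.cos α - h * Real.cos θ = h / 2 * (2 * Real.cos α - 2 * Real.cos θ) := by ring
  rw [e2, abs_mul, ← norm_conj_circle, abs_of_pos (by positivity : 0 < h / 2)]
  have hn1 := norm_pos_iff.2 h1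
  have hn2 := norm_pos_iff.2 h2
  rw [Real.log_mul (by positivity) (by positivity), Real.log_mul hn1.ne' hn2.ne']
  ring

end Pool.Agent.Helper63.E38
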